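import Pool.Agent.HomI.Main

/-!
# Homomorphism counts from classes with an excluded minor or immersion do not decide isomorphism

`Pool.Agent.HomV.InClass k F`: the graph `F` is obtained by clique sums of order at most `k` from
`k`-nearly embeddable graphs (`Pool.Agent.HomV.NearEmb`): graphs in a surface of Euler genus at
most `k` with at most `k` apex vertices and at most `k` vortices of depth at most `k`.
`Pool.Agent.HomI.CliqueImm k F`: an immersion of the complete graph with `k` vertices in `F`.
`Pool.Agent.HomI.Sparse k F`: `F` is obtained by gluing along complete subgraphs from graphs of the
first class and graphs without an immersion of the complete graph with `k` vertices.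

For every `k` there are two non-isomorphic finite graphs `G` and `H` with the same number of
homomorphisms from every graph `F` of this class.
-/

namespace Pool.Agent.HomI.Extra.Candidate

open Pool.Agent.HomI

theorem result (k : ℕ) : ∃ (W W' : Type) (_ : Fintype W) (_ : Fintype W') (G : SimpleGraph W)
    (H : SimpleGraph W'), IsEmpty (G ≃g H) ∧
      ∀ (V : Type) [Fintype V] (F : SimpleGraph V), Sparse k F →
        Nat.card (F →g G) = Nat.card (F →g H) :=
  main k

end Pool.Agent.HomI.Extra.Candidate
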